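import Pool.Agent.K3h30.RS.Stm2
import Pool.Agent.K3h25.RS.Trans

/-!
# Project RS, bricks APPROX0, PP and NOZETA
-/

set_option autoImplicit false

open NumberField IsDedekindDomain Filter Topology

noncomputable section

namespace Pool.Agent.K3h36.RS

open Pool.Agent.K3h30.RS

/-- A larger set of prime ideals has positive proportion too. -/
theorem posProportion_mono {F : Type} [Field F] [NumberField F]
    {P Q : HeightOneSpectrum (𝓞 F) → Prop} (h : ∀ v, P v → Q v) (hP : PosProportion P) :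
    PosProportion Q := by
  obtain ⟨c, hc, hX⟩ := hP
  refine ⟨c, hc, ?_⟩
  filter_upwards [hX] with X hX
  refine hX.trans ?_
  have hfin : {v : HeightOneSpectrum (𝓞 F) | Ideal.absNorm v.asIdeal ≤ X}.Finite := by
    refine Set.Finite.of_finite_image (f := fun w : HeightOneSpectrum (𝓞 F) => w.asIdeal)
      ((Ideal.finite_setOfPred_absNorm_le X).subset ?_) ?_
    · rintro _ ⟨w, hw, rfl⟩
      exact hw
    · intro w _ w' _ h
      exact HeightOneSpectrum.ext h
  have hfinQ : Finite {v : HeightOneSpectrum (𝓞 F) // Q v ∧ Ideal.absNorm v.asIdeal ≤ X} :=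
    (hfin.subset fun v hv => hv.2 :
      {v : HeightOneSpectrum (𝓞 F) | Q v ∧ Ideal.absNorm v.asIdeal ≤ X}.Finite).to_subtype
  have := Nat.card_le_card_of_injective
    (fun v : {v : HeightOneSpectrum (𝓞 F) // P v ∧ Ideal.absNorm v.asIdeal ≤ X} =>
      (⟨v.1, h v.1 v.2.1, v.2.2⟩ :
        {v : HeightOneSpectrum (𝓞 F) // Q v ∧ Ideal.absNorm v.asIdeal ≤ X}))
    (fun v v' hv => Subtype.ext (Subtype.mk.inj hv))
  exact_mod_cast this

theorem t_PP : S_CHEB → S_PP := by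
  intro hC F _ _
  exact posProportion_mono (fun _ _ => trivial) (hC F F AlgEquiv.refl ∅)

/-- `η` a nontrivial `l`-th root of unity which is one modulo `P`: `P` divides `l`. -/
theorem root_sub_one {L : Type} [Field L] [NumberField L] (P : HeightOneSpectrum (𝓞 L)) (l : ℕ)
    (η : L) (h1 : η ^ l = 1) (h2 : η ≠ 1) (h3 : P.valuation L (η - 1) < 1) :
    P.valuation L (l : L) < 1 := by
  have hsum : ∑ i ∈ Finset.range l, η ^ i = 0 := by
    have h4 := geom_sum_mul η l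
    rw [h1, sub_self] at h4
    rcases mul_eq_zero.mp h4 with h5 | h5
    · exact h5
    · exact absurd (sub_eq_zero.mp h5) h2
  have hv : P.valuation L η = 1 := by
    have h := Valuation.map_one_add_of_lt (P.valuation L) h3
    rwa [add_sub_cancel] at h
  have e : (l : L) = ∑ i ∈ Finset.range l, (1 - η ^ i) := by
    rw [Finset.sum_sub_distrib, hsum, sub_zero]
    simp
  rw [e]
  refine Valuation.map_sum_lt (P.valuation L) one_ne_zero fun i _ => ?_
  have e2 : 1 - η ^ i = -((∑ j ∈ Finset.range i, η ^ j) * (η - 1)) := by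
    rw [geom_sum_mul]; ring
  rw [e2, Valuation.map_neg, map_mul]
  refine lt_of_le_of_lt (mul_le_of_le_one_left' ?_) h3
  refine Valuation.map_sum_le (P.valuation L) fun j _ => ?_
  rw [map_pow, hv, one_pow]

theorem t_APPROX0 : S_CHEB → S_APPROX0 := by
  intro hC F H G _ _ _ _ _ _ _ _ _ l hl hH
  classical
  have : NeZero l := ⟨hl.ne_zero⟩
  let L := CyclotomicField l H
  obtain ⟨ζ, hζ⟩ := IsCyclotomicExtension.exists_isPrimitiveRoot (S := ({l} : Set ℕ)) (n := l) H L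
    rfl hl.ne_zero
  have : IsGalois H L := IsCyclotomicExtension.isGalois {l} H L
  obtain ⟨Φ, hΦ⟩ : ∃ Φ : L ≃ₐ[H] L, Φ ζ ≠ ζ := by
    by_contra hcon
    push Not at hcon
    obtain ⟨z, hz⟩ := (IsGalois.mem_range_algebraMap_iff_fixed (F := H) (E := L) ζ).mpr hcon
    apply hH
    refine ⟨z, ?_, ?_⟩
    · apply (algebraMap H L).injective
      rw [map_pow, hz, map_one, hζ.pow_eq_one]
    · intro h1
      rw [h1, map_one] at hz
      exact hζ.ne_one hl.one_lt hz.symm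
  have hbadfin : {v : HeightOneSpectrum (𝓞 F) | v.asIdeal ∣ Ideal.span {(l : 𝓞 F)}}.Finite := by
    refine Ideal.finite_factors ?_
    rw [Ne, Ideal.zero_eq_bot, Ideal.span_singleton_eq_bot]
    exact_mod_cast hl.ne_zero
  refine ⟨_, hC F L (Φ.restrictScalars F) hbadfin.toFinset, ?_⟩
  rintro v ⟨hv, P, ⟨v', hv', hPv⟩, hP⟩
  rw [Set.mem_singleton_iff] at hv'
  subst hv'
  have hlv : (l : 𝓞 F) ∉ v'.asIdeal := by
    intro h
    apply hv
    rw [Set.Finite.mem_toFinset]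
    exact Ideal.dvd_iff_le.mpr ((Ideal.span_singleton_le_iff_mem _).mpr h)
  -- the prime of `H` below `P`
  have hPH : P.asIdeal.comap (algebraMap (𝓞 H) (𝓞 L)) ≠ ⊥ := by
    intro h0
    have h1 : P.asIdeal.comap (algebraMap (𝓞 F) (𝓞 L)) =
        (P.asIdeal.comap (algebraMap (𝓞 H) (𝓞 L))).comap (algebraMap (𝓞 F) (𝓞 H)) := by
      rw [Ideal.comap_comap]
      rfl
    rw [h1, h0] at hPv
    apply v'.ne_bot
    rw [← hPv]
    exact (RingHom.injective_iff_ker_eq_bot _).mp (FaithfulSMul.algebraMap_injective (𝓞 F) (𝓞 H))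
  have := P.isPrime
  let w : HeightOneSpectrum (𝓞 H) :=
    ⟨P.asIdeal.comap (algebraMap (𝓞 H) (𝓞 L)), Ideal.comap_isPrime _ _, hPH⟩
  have hw : Above {v'} w := by
    refine ⟨v', rfl, ?_⟩
    rw [← hPv]
    change (P.asIdeal.comap (algebraMap (𝓞 H) (𝓞 L))).comap (algebraMap (𝓞 F) (𝓞 H)) = _
    rw [Ideal.comap_comap]
    rfl
  have hwx : ∀ x : 𝓞 H, w.valuation H ((x : H) - (x : H) ^ (Ideal.absNorm v'.asIdeal)) < 1 := by
    intro x
    have h1 := hP (algebraMap (𝓞 H) (𝓞 L) x)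
    have h2 : ((algebraMap (𝓞 H) (𝓞 L) x : 𝓞 L) : L) = algebraMap H L (x : H) := rfl
    rw [h2] at h1
    have h3 : (Φ.restrictScalars F) (algebraMap H L (x : H)) = algebraMap H L (x : H) :=
      Φ.commutes _
    rw [h3] at h1
    have h4 : algebraMap H L (x : H) - algebraMap H L (x : H) ^ (Ideal.absNorm v'.asIdeal) =
        ((algebraMap (𝓞 H) (𝓞 L) (x - x ^ (Ideal.absNorm v'.asIdeal)) : 𝓞 L) : L) := by
      rw [map_sub, map_pow]
      push_cast
      rfl
    rw [h4] at h1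
    have h5 := (P.valuation_lt_one_iff_mem (K := L) _).mp h1
    have h6 : x - x ^ (Ideal.absNorm v'.asIdeal) ∈ w.asIdeal := h5
    have h7 := (w.valuation_lt_one_iff_mem (K := H) _).mpr h6
    have h8 : (x : H) - (x : H) ^ (Ideal.absNorm v'.asIdeal) =
        algebraMap (𝓞 H) H (x - x ^ (Ideal.absNorm v'.asIdeal)) := by
      rw [map_sub, map_pow]
    rw [h8]
    exact h7
  constructor
  · intro w' hw' x
    rw [one_smul]
    obtain ⟨γ, hγ⟩ := (Pool.Agent.K3h25.RS.t_TRANS F H G v' w hw).2 w' hw'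
    rw [hγ, smul_sub, smul_pow']
    exact hwx (γ • x)
  · intro hdvd
    have hNpos : 1 ≤ Ideal.absNorm v'.asIdeal := by
      rw [Nat.one_le_iff_ne_zero, Ne, Ideal.absNorm_eq_zero_iff]
      exact v'.ne_bot
    obtain ⟨k, hk⟩ := hdvd
    have hN : Ideal.absNorm v'.asIdeal = 1 + l * k := by omega
    have hζi : IsIntegral ℤ ζ := hζ.isIntegral hl.pos
    have h1 : P.valuation L (Φ ζ - ζ ^ (Ideal.absNorm v'.asIdeal)) < 1 := hP ⟨ζ, hζi⟩
    rw [hN, pow_add, pow_mul, hζ.pow_eq_one, one_pow, mul_one, pow_one] at h1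
    have hζ0 : ζ ≠ 0 := hζ.ne_zero hl.ne_zero
    have hζv : P.valuation L ζ = 1 := by
      have h4 : (P.valuation L ζ) ^ l = 1 := by rw [← map_pow, hζ.pow_eq_one, map_one]
      exact (pow_eq_one_iff_of_nonneg zero_le hl.ne_zero).mp h4
    have h5 : P.valuation L (Φ ζ / ζ - 1) < 1 := by
      have e : Φ ζ / ζ - 1 = (Φ ζ - ζ) / ζ := by rw [sub_div, div_self hζ0]
      rw [e, map_div₀, hζv, div_one]
      exact h1
    have h6 := root_sub_one P l (Φ ζ / ζ)
      (by rw [div_pow, ← map_pow, hζ.pow_eq_one, map_one, div_one])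
      (by
        intro h
        rw [div_eq_one_iff_eq hζ0] at h
        exact hΦ h) h5
    have h7 : (l : L) = algebraMap (𝓞 L) L (l : 𝓞 L) := by rw [map_natCast]
    rw [h7] at h6
    have h8 := (P.valuation_lt_one_iff_mem (K := L) _).mp h6
    apply hlv
    rw [← hPv, Ideal.mem_comap, map_natCast]
    exact h8

/-- `(1 - ζ) ^ (l - 1)` divides `l`, and a prime which contains `l` contains `1 - ζ` for a suitable
root of unity `ζ ≠ 1` of order `l`. -/
theorem root_pow_dvd {R : Type} [CommRing R] [IsDomain R] (l : ℕ) (hl : l.Prime) (ζ : R)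
    (hζ : IsPrimitiveRoot ζ l) (I : Ideal R) (hI : I.IsPrime) (h : (l : R) ∈ I) :
    ∃ η : R, 1 - η ∈ I ∧ (1 - η) ^ (l - 1) ∣ (l : R) := by
  have : Fact l.Prime := ⟨hl⟩
  have hprod : (l : R) = ∏ μ ∈ primitiveRoots l R, (1 - μ) := by
    rw [← Polynomial.eval_one_cyclotomic_prime (R := R) (p := l),
      Polynomial.cyclotomic_eq_prod_X_sub_primitiveRoots hζ, Polynomial.eval_prod]
    simp
  rw [hprod] at h
  obtain ⟨η, hη, hηI⟩ := (Ideal.IsPrime.prod_mem_iff (hp := hI)).mp h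
  refine ⟨η, hηI, ?_⟩
  have hη' : IsPrimitiveRoot η l := (mem_primitiveRoots hl.pos).mp hη
  have hcard : (primitiveRoots l R).card = l - 1 := by
    rw [hη'.card_primitiveRoots, Nat.totient_prime hl]
  rw [hprod, ← hcard, ← Finset.prod_const]
  refine Finset.prod_dvd_prod_of_dvd _ _ fun μ hμ => ?_
  have hμ' : IsPrimitiveRoot μ l := (mem_primitiveRoots hl.pos).mp hμ
  obtain ⟨i, -, rfl⟩ := hη'.eq_pow_of_pow_eq_one hμ'.pow_eq_one
  have h1 := sub_dvd_pow_sub_pow (1 : R) η i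
  rwa [one_pow] at h1

theorem t_NOZETA : S_NOZETA := by
  intro F H _ _ _ _ _ t hsq hlt
  classical
  rintro ⟨ζ, hζ1, hζ2⟩
  set l := ringChar (𝓞 F ⧸ t.asIdeal) with hldef
  have hmax := t.isMaximal
  let _ : Field (𝓞 F ⧸ t.asIdeal) := Ideal.Quotient.field t.asIdeal
  have hfin : Finite (𝓞 F ⧸ t.asIdeal) := Ideal.finiteQuotientOfFreeOfNeBot t.asIdeal t.ne_bot
  have hl : l.Prime := CharP.char_is_prime (𝓞 F ⧸ t.asIdeal) l
  have hlt' : (l : 𝓞 F) ∈ t.asIdeal := by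
    rw [← Ideal.Quotient.eq_zero_iff_mem, map_natCast]
    exact CharP.cast_eq_zero _ _
  have hlF : Fact l.Prime := ⟨hl⟩
  obtain ⟨⟨w, ⟨v', hv', hw⟩⟩, -⟩ := Pool.Agent.K3h25.RS.t_OVER F H t
  rw [Set.mem_singleton_iff] at hv'
  rw [hv'] at hw
  have hζp : IsPrimitiveRoot ζ l := by
    have h1 := IsPrimitiveRoot.orderOf ζ
    rwa [orderOf_eq_prime hζ1 hζ2] at h1
  have hζi : IsIntegral ℤ ζ := hζp.isIntegral hl.pos
  have hζp' : IsPrimitiveRoot (⟨ζ, hζi⟩ : 𝓞 H) l :=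
    IsPrimitiveRoot.of_map_of_injective (f := algebraMap (𝓞 H) H) hζp
      (FaithfulSMul.algebraMap_injective (𝓞 H) H)
  have hlw : (l : 𝓞 H) ∈ w.asIdeal := by
    have h1 : algebraMap (𝓞 F) (𝓞 H) (l : 𝓞 F) ∈ w.asIdeal := by
      rw [← Ideal.mem_comap, hw]
      exact hlt'
    rwa [map_natCast] at h1
  obtain ⟨η, hη, hηl⟩ := root_pow_dvd (R := 𝓞 H) l hl _ hζp' w.asIdeal w.isPrime hlw
  -- the multiplicities
  have hw1 : w.asIdeal ^ (l - 1) ∣ Ideal.span {(l : 𝓞 H)} := by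
    have h1 : w.asIdeal ∣ Ideal.span {1 - η} :=
      Ideal.dvd_iff_le.mpr ((Ideal.span_singleton_le_iff_mem _).mpr hη)
    refine (pow_dvd_pow_of_dvd h1 _).trans ?_
    rw [Ideal.span_singleton_pow, Ideal.dvd_iff_le, Ideal.span_singleton_le_span_singleton]
    exact hηl
  have hspan : Ideal.span {(l : 𝓞 H)} =
      (Ideal.span {(l : 𝓞 F)}).map (algebraMap (𝓞 F) (𝓞 H)) := by
    rw [Ideal.map_span, Set.image_singleton, map_natCast]
  have hl0 : Ideal.span {(l : 𝓞 F)} ≠ 0 := by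
    rw [Ne, Ideal.zero_eq_bot, Ideal.span_singleton_eq_bot]
    exact_mod_cast hl.ne_zero
  have htp : Prime t.asIdeal := t.prime
  have hwp : Prime w.asIdeal := w.prime
  obtain ⟨e, J, hJ, heJ⟩ : ∃ (e : ℕ) (J : Ideal (𝓞 F)), ¬ t.asIdeal ∣ J ∧
      Ideal.span {(l : 𝓞 F)} = t.asIdeal ^ e * J := by
    have hf : FiniteMultiplicity t.asIdeal (Ideal.span {(l : 𝓞 F)}) :=
      FiniteMultiplicity.of_prime_left htp hl0
    obtain ⟨J, hJ1, hJ2⟩ := hf.exists_eq_pow_mul_and_not_dvd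
    exact ⟨_, J, hJ2, hJ1⟩
  have he : e ≤ Module.finrank ℚ F := by
    have h1 : Ideal.absNorm t.asIdeal ^ e ∣ l ^ Module.finrank ℚ F := by
      have h2 := Ideal.absNorm_dvd_absNorm_of_le
        (Ideal.dvd_iff_le.mp (Dvd.intro _ heJ.symm : t.asIdeal ^ e ∣ Ideal.span {(l : 𝓞 F)}))
      rwa [map_pow, Ideal.absNorm_span_singleton,
        show ((l : ℕ) : 𝓞 F) = algebraMap ℤ (𝓞 F) (l : ℤ) by simp,
        Algebra.norm_algebraMap, Int.natAbs_pow, Int.natAbs_natCast, RingOfIntegers.rank] at h2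
    have h3 : l ∣ Ideal.absNorm t.asIdeal := by
      rw [hldef]
      refine ringChar.dvd ?_
      let _ := Fintype.ofFinite (𝓞 F ⧸ t.asIdeal)
      rw [Ideal.absNorm_apply, Submodule.cardQuot_apply, Nat.card_eq_fintype_card]
      exact Nat.cast_card_eq_zero (𝓞 F ⧸ t.asIdeal)
    exact (Nat.pow_dvd_pow_iff_le_right hl.one_lt).mp ((pow_dvd_pow_of_dvd h3 e).trans h1)
  have hJw : ¬ w.asIdeal ∣ J.map (algebraMap (𝓞 F) (𝓞 H)) := by
    intro h
    apply hJ
    rw [Ideal.dvd_iff_le] at h ⊢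
    rw [← hw]
    exact Ideal.map_le_iff_le_comap.mp h
  have h2 : w.asIdeal ^ (l - 1) ∣ t.asIdeal.map (algebraMap (𝓞 F) (𝓞 H)) ^ e := by
    rw [hspan, heJ, Ideal.map_mul, Ideal.map_pow, mul_comm] at hw1
    exact hwp.pow_dvd_of_dvd_mul_left _ hJw hw1
  have h3 : emultiplicity w.asIdeal (t.asIdeal.map (algebraMap (𝓞 F) (𝓞 H))) ≤ 1 := by
    have h4 := (squarefree_iff_emultiplicity_le_one _).mp hsq w.asIdeal
    rcases h4 with h4 | h4
    · exact h4
    · exact absurd h4 hwp.not_isUnit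
  have h5 : ((l - 1 : ℕ) : ℕ∞) ≤ e := by
    have h6 := le_emultiplicity_of_pow_dvd h2
    rw [emultiplicity_pow hwp] at h6
    refine h6.trans ?_
    calc (e : ℕ∞) * emultiplicity w.asIdeal (t.asIdeal.map (algebraMap (𝓞 F) (𝓞 H)))
        ≤ e * 1 := by gcongr
      _ = e := mul_one _
  have h7 : l - 1 ≤ e := by exact_mod_cast h5
  omega

end Pool.Agent.K3h36.RS
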