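import Pool.Agent.K3h30.RS.Stm

/-!
Bricks FIN and HOMFG (helper36).
-/

set_option autoImplicit false

noncomputable section

namespace Pool.Agent.K3h30.RS

namespace FinAux

/-- the determinant functions, as a multilinear map -/
def D (R A : Type) [CommRing R] (Z : Subring R) (r : ℕ) :
    MultilinearMap Z (fun _ : Fin r => A → R) ((Fin r → A) → R) :=
  MultilinearMap.pi fun x : Fin r → A =>
    ((Matrix.detRowAlternating (n := Fin r) (R := R)).toMultilinearMap.restrictScalars
      Z).compLinearMap (fun _ => LinearMap.funLeft Z R x)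

theorem D_apply (R A : Type) [CommRing R] (Z : Subring R) (r : ℕ) (y : Fin r → A → R)
    (x : Fin r → A) : D R A Z r y x = Matrix.det (Matrix.of fun i j => y i (x j)) := rfl

/-- the determinant functions of a finitely generated module span a finitely generated module -/
theorem fg_det (R A : Type) [CommRing R] (Z : Subring R) [IsNoetherianRing Z]
    (M : Submodule Z (A → R)) (hM : M.FG) (r : ℕ) :
    (Submodule.span Z {g : (Fin r → A) → R | ∃ y : Fin r → A → R, (∀ i, y i ∈ M) ∧
          g = fun x => Matrix.det (Matrix.of fun i j => y i (x j))}).FG := by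
  obtain ⟨n, m, hm⟩ := Submodule.fg_iff_exists_fin_generating_family.mp hM
  have hle : Submodule.span Z {g : (Fin r → A) → R | ∃ y : Fin r → A → R, (∀ i, y i ∈ M) ∧
          g = fun x => Matrix.det (Matrix.of fun i j => y i (x j))} ≤
      Submodule.span Z (Set.range fun φ : Fin r → Fin n => D R A Z r (fun i => m (φ i))) := by
    rw [Submodule.span_le]
    rintro g ⟨y, hy, rfl⟩
    have hc : ∀ i, ∃ c : Fin n → Z, ∑ k, c k • m k = y i := by
      intro i
      have := hy i
      rw [← hm] at this
      exact (Submodule.mem_span_range_iff_exists_fun Z).mp this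
    choose c hc using hc
    have h1 : (fun x : Fin r → A => Matrix.det (Matrix.of fun i j => y i (x j))) =
        D R A Z r (fun i => ∑ k, c i k • m k) := by
      funext x
      rw [D_apply]
      simp only [hc]
    have h2 : D R A Z r (fun i => ∑ k, c i k • m k) ∈ Submodule.span Z
        (Set.range fun φ : Fin r → Fin n => D R A Z r (fun i => m (φ i))) := by
      rw [MultilinearMap.map_sum]
      refine Submodule.sum_mem _ fun φ _ => ?_
      rw [MultilinearMap.map_smul_univ]
      exact Submodule.smul_mem _ _ (Submodule.subset_span ⟨φ, rfl⟩)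
    rw [h1]
    exact h2
  have hfg : (Submodule.span Z
      (Set.range fun φ : Fin r → Fin n => D R A Z r (fun i => m (φ i)))).FG :=
    Submodule.fg_span (Set.finite_range _)
  exact (isNoetherian_submodule.mp (isNoetherian_of_fg_of_noetherian _ hfg)) _ hle

end FinAux

open FinAux in
theorem t_FIN : S_FIN := by
  intro R A J _ Z _ M hM r w hw f hf
  have hwr : ∀ z : R, ((w ^ r : ℕ) : R) * z = 0 → z = 0 := by
    intro z hz
    have h : ∀ k : ℕ, (w : R) ^ k * z = 0 → z = 0 := by
      intro k
      induction k with
      | zero => intro h; simpa using h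
      | succ k ih =>
        intro h
        apply ih
        apply hw
        rw [← h, pow_succ]
        ring
    apply h r
    rw [← hz]
    push_cast
    rfl
  -- multiplication by `w ^ r`
  let μ : ((Fin r → A) → R) →ₗ[Z] ((Fin r → A) → R) :=
    { toFun := fun g x => ((w ^ r : ℕ) : R) * g x
      map_add' := fun a b => by funext x; simp [mul_add]
      map_smul' := fun a b => by
        funext x
        simp only [Pi.smul_apply, Subring.smul_def, smul_eq_mul, RingHom.id_apply]
        ring }
  have hμ : Function.Injective μ := by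
    intro a b hab
    funext x
    have h1 : ((w ^ r : ℕ) : R) * a x = ((w ^ r : ℕ) : R) * b x := congrFun hab x
    have h2 := hwr (a x - b x) (by rw [mul_sub, h1, sub_self])
    exact sub_eq_zero.mp h2
  have hS := fg_det R A Z M hM r
  have hN : (Submodule.span Z (Set.range f)).FG := by
    apply Submodule.fg_of_fg_map_injective μ hμ
    refine (isNoetherian_submodule.mp (isNoetherian_of_fg_of_noetherian _ hS)) _ ?_
    rw [Submodule.map_span, Submodule.span_le]
    rintro g ⟨_, ⟨j, rfl⟩, rfl⟩
    exact hf j
  have hcpt := (Submodule.fg_iff_compact _).mp hN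
  rw [CompleteLattice.isCompactElement_iff_exists_le_iSup_of_le_iSup] at hcpt
  obtain ⟨s, hs⟩ := hcpt J (fun j => Submodule.span Z {f j}) (by
    rw [Submodule.span_le]
    rintro _ ⟨j, rfl⟩
    exact Submodule.mem_iSup_of_mem j (Submodule.mem_span_singleton_self _))
  refine ⟨s, fun j => ?_⟩
  have h1 := hs (Submodule.subset_span ⟨j, rfl⟩)
  have h2 : s.sup (fun i => Submodule.span Z {f i}) ≤ Submodule.span Z (f '' (s : Set J)) := by
    refine Finset.sup_le fun i hi => ?_
    rw [Submodule.span_le, Set.singleton_subset_iff]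
    exact Submodule.subset_span ⟨i, hi, rfl⟩
  exact h2 h1

namespace FinAux

variable {G A : Type} [CommGroup G] [Finite G] [AddCommGroup A] [DistribMulAction G A]

/-- the homomorphism to `ℤ[G]` given by its coefficient at one -/
def yOf (G : Type) {A : Type} [CommGroup G] [Finite G] [AddCommGroup A] [DistribMulAction G A]
    (φ : A →+ ℤ) : A →+ MonoidAlgebra ℤ G :=
  letI := Fintype.ofFinite G
  { toFun := fun x => ∑ γ : G, MonoidAlgebra.single γ (φ (γ⁻¹ • x))
    map_zero' := by simp
    map_add' := fun x y => by
      rw [← Finset.sum_add_distrib]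
      refine Finset.sum_congr rfl fun γ _ => ?_
      rw [smul_add, map_add, MonoidAlgebra.single_add] }

theorem coeff_yOf (φ : A →+ ℤ) (x : A) (γ : G) : (yOf G φ x).coeff γ = φ (γ⁻¹ • x) := by
  classical
  let _ := Fintype.ofFinite G
  have h : yOf G φ x = ∑ γ : G, MonoidAlgebra.single γ (φ (γ⁻¹ • x)) := by
    unfold yOf
    rfl
  rw [h, MonoidAlgebra.coeff_sum, Finsupp.finsetSum_apply]
  rw [Finset.sum_eq_single γ]
  · simp [MonoidAlgebra.coeff_single]
  · intro b _ hb
    rw [MonoidAlgebra.coeff_single, Finsupp.single_apply, if_neg hb]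
  · intro h; exact absurd (Finset.mem_univ γ) h

theorem yOf_equiv (φ : A →+ ℤ) (g : G) (x : A) :
    yOf G φ (g • x) = MonoidAlgebra.single g 1 * yOf G φ x := by
  apply MonoidAlgebra.coeff_injective
  ext γ
  rw [coeff_yOf, MonoidAlgebra.coeff_single_mul_apply, coeff_yOf, one_mul, smul_smul]
  congr 2
  rw [mul_inv_rev, inv_inv]

omit [Finite G] in
theorem toQ_coeff (z : MonoidAlgebra ℤ G) (γ : G) : (toQ z).coeff γ = ((z.coeff γ : ℤ) : ℚ) := by
  unfold toQ
  rw [MonoidAlgebra.coeff_mapRingHom]
  rfl

end FinAux

open FinAux in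
theorem t_HOMFG : S_HOMFG := by
  intro G A _ _ _ _ _
  have hfin : Module.Finite ℤ (MonoidAlgebra ℤ G) := by
    let _ := Fintype.ofFinite G
    refine Module.Finite.of_surjective
      ({ toFun := fun c : G → ℤ => ∑ γ : G, MonoidAlgebra.single γ (c γ)
         map_add' := fun a b => by
           rw [← Finset.sum_add_distrib]
           exact Finset.sum_congr rfl fun γ _ => by rw [Pi.add_apply, MonoidAlgebra.single_add]
         map_smul' := fun a b => by
           rw [Finset.smul_sum]
           exact Finset.sum_congr rfl fun γ _ => by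
             rw [Pi.smul_apply, MonoidAlgebra.smul_single]; rfl } :
        (G → ℤ) →ₗ[ℤ] MonoidAlgebra ℤ G) ?_
    intro z
    refine ⟨fun γ => z.coeff γ, ?_⟩
    classical
    apply MonoidAlgebra.coeff_injective
    ext γ
    change (∑ γ : G, MonoidAlgebra.single γ (z.coeff γ)).coeff γ = z.coeff γ
    rw [MonoidAlgebra.coeff_sum, Finsupp.finsetSum_apply, Finset.sum_eq_single γ]
    · simp [MonoidAlgebra.coeff_single]
    · intro b _ hb
      rw [MonoidAlgebra.coeff_single, Finsupp.single_apply, if_neg hb]
    · intro h; exact absurd (Finset.mem_univ γ) h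
  have hnoeth : IsNoetherianRing (MonoidAlgebra ℤ G) :=
    isNoetherian_of_tower ℤ (isNoetherian_of_isNoetherianRing_of_finite ℤ (MonoidAlgebra ℤ G))
  refine ⟨isNoetherianRing_range _, ?_⟩
  -- the module
  let M : Submodule (toQ (G := G)).range (A → MonoidAlgebra ℚ G) :=
    { carrier := {f | ∃ y : A →+ MonoidAlgebra ℤ G,
        (∀ (γ : G) (x : A), y (γ • x) = MonoidAlgebra.single γ 1 * y x) ∧ ∀ x, f x = toQ (y x)}
      add_mem' := by
        rintro f g ⟨y, hy1, hy2⟩ ⟨z, hz1, hz2⟩
        refine ⟨y + z, fun γ x => ?_, fun x => ?_⟩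
        · rw [AddMonoidHom.add_apply, AddMonoidHom.add_apply, hy1, hz1, mul_add]
        · rw [Pi.add_apply, AddMonoidHom.add_apply, map_add, hy2, hz2]
      zero_mem' := ⟨0, fun γ x => by simp, fun x => by simp⟩
      smul_mem' := by
        rintro ⟨_, ⟨c, rfl⟩⟩ f ⟨y, hy1, hy2⟩
        refine ⟨(AddMonoidHom.mulLeft c).comp y, fun γ x => ?_, fun x => ?_⟩
        · simp only [AddMonoidHom.comp_apply, AddMonoidHom.coe_mulLeft, hy1]
          ring
        · simp only [AddMonoidHom.comp_apply, AddMonoidHom.coe_mulLeft, map_mul, Pi.smul_apply,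
            Subring.smul_def, smul_eq_mul, hy2] }
  refine ⟨M, ?_, fun f => Iff.rfl⟩
  -- homomorphisms to `ℤ`
  have hA : Module.Finite ℤ A := by
    obtain ⟨S, hS⟩ := (AddGroup.fg_def.mp (inferInstance : AddGroup.FG A))
    refine ⟨⟨S, ?_⟩⟩
    rw [eq_top_iff]
    intro a _
    have h1 : a ∈ AddSubgroup.closure (S : Set A) := by rw [hS]; trivial
    have h2 : AddSubgroup.closure (S : Set A) ≤
        (Submodule.span ℤ (S : Set A)).toAddSubgroup := by
      rw [AddSubgroup.closure_le]
      exact Submodule.subset_span
    exact h2 h1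
  obtain ⟨n, e, he⟩ := Submodule.fg_iff_exists_fin_generating_family.mp hA.1
  have hHom : Module.Finite ℤ (A →+ ℤ) := by
    have hinj : Function.Injective ({ toFun := fun φ i => φ (e i)
                                      map_add' := fun _ _ => rfl
                                      map_smul' := fun _ _ => rfl } :
        (A →+ ℤ) →ₗ[ℤ] (Fin n → ℤ)) := by
      intro φ ψ h
      have h1 : ∀ i, φ (e i) = ψ (e i) := fun i => congrFun h i
      have h2 : φ.toIntLinearMap = ψ.toIntLinearMap := by
        apply LinearMap.ext_on_range (v := e) he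
        intro i
        exact h1 i
      ext a
      exact congrArg (fun l : A →ₗ[ℤ] ℤ => l a) h2
    have := isNoetherian_of_injective _ hinj
    infer_instance
  let Φ : (A →+ ℤ) →ₗ[ℤ] (A → MonoidAlgebra ℚ G) :=
    { toFun := fun φ x => toQ (yOf G φ x)
      map_add' := fun φ ψ => by
        funext x
        rw [Pi.add_apply, ← map_add]
        congr 1
        apply MonoidAlgebra.coeff_injective
        ext γ
        rw [MonoidAlgebra.coeff_add, Finsupp.add_apply, coeff_yOf, coeff_yOf, coeff_yOf]
        rfl
      map_smul' := fun c φ => by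
        funext x
        apply MonoidAlgebra.coeff_injective
        ext γ
        rw [toQ_coeff, coeff_yOf]
        simp only [Pi.smul_apply, RingHom.id_apply, MonoidAlgebra.coeff_smul,
          Finsupp.smul_apply, toQ_coeff, coeff_yOf, AddMonoidHom.coe_smul]
        simp }
  have hrange : M.restrictScalars ℤ = LinearMap.range Φ := by
    ext f
    constructor
    · rintro ⟨y, hy1, hy2⟩
      let φ : A →+ ℤ :=
        { toFun := fun x => (y x).coeff 1
          map_zero' := by simp
          map_add' := fun a b => by rw [map_add, MonoidAlgebra.coeff_add, Finsupp.add_apply] }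
      refine ⟨φ, ?_⟩
      funext x
      rw [hy2]
      change toQ (yOf G φ x) = _
      congr 1
      apply MonoidAlgebra.coeff_injective
      ext γ
      rw [coeff_yOf]
      change (y (γ⁻¹ • x)).coeff 1 = _
      rw [hy1, MonoidAlgebra.coeff_single_mul_apply, one_mul, inv_inv, mul_one]
    · rintro ⟨φ, rfl⟩
      exact ⟨yOf G φ, yOf_equiv φ, fun x => rfl⟩
  apply Submodule.FG.of_restrictScalars ℤ
  rw [hrange]
  exact (LinearMap.range_eq_map Φ) ▸ (Module.Finite.fg_top).map Φ

end Pool.Agent.K3h30.RS
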